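import Pool.Agent.R490.Prog

set_option autoImplicit false

/-!
# Narrow progressions in arbitrary sets of `q` with all `q r_j + 1` prime or rough
-/

namespace Pool.Agent.Results.MP_d018b2_nt.ArbitrarySets

open Finset Filter

/-- The `q` such that all prime factors of all `q r + 1`, `r ∈ T`, exceed `q ^ (1 / R)`. For `R ≥ 2` this set
contains all `q` for which these numbers are primes. -/
def RoughArguments (T : Finset ℕ) (R : ℕ) : Set ℕ :=
  {q | ∀ r ∈ T, ∀ p : ℕ, p.Prime → p ∣ q * r + 1 → (q : ℝ) ^ (1 / (R : ℝ)) < (p : ℝ)}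

/-- `q` is a term of an `m`-term arithmetic progression with difference at most `D`, all terms of which
are elements of `A` in `(X, Z]`. -/
def InProgression (A : Set ℕ) (m : ℕ) (D : ℝ) (X Z q : ℕ) : Prop :=
  ∃ s d : ℕ, 1 ≤ d ∧ (d : ℝ) ≤ D ∧ (∀ i < m, s + i * d ∈ A ∧ X < s + i * d ∧ s + i * d ≤ Z) ∧
    ∃ i < m, q = s + i * d

open Classical in
/-- **Narrow progressions in arbitrary sets.** Let `T = {r_1, …, r_l}` be ANY set of positive integers,
`θ, ε > 0` and `R, m ≥ 2`. There is an exponent `B` such that for all large `X`, all `X ^ θ ≤ Y ≤ X` and EVERY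
set `A` of integers `q` such that all prime factors of all `q r_j + 1` exceed `q ^ (1 / R)`, for instance every
set of `q` for which these numbers are primes: all but at most `ε Y / (log X) ^ l` of the elements of `A` in
`(X, X + Y]` are terms of `m`-term arithmetic progressions with difference at most `(log X) ^ B` all terms of
which are in `A` and in `(X, X + Y]`. -/
theorem result (T : Finset ℕ) (hT : T.Nonempty) (hT1 : ∀ r ∈ T, 1 ≤ r) (θ : ℝ) (hθ : 0 < θ)
    (R : ℕ) (hR : 2 ≤ R) (m : ℕ) (hm : 2 ≤ m) (ε : ℝ) (hε : 0 < ε) :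
    ∃ B : ℕ, ∀ᶠ X : ℕ in atTop, ∀ Y : ℕ, (X : ℝ) ^ θ ≤ Y → Y ≤ X →
      ∀ A : Set ℕ, A ⊆ RoughArguments T R →
        (((Ioc X (X + Y)).filter (fun q : ℕ =>
          q ∈ A ∧ ¬ InProgression A m (Real.log X ^ B) X (X + Y) q)).card : ℝ) ≤
        ε * (Y / Real.log X ^ T.card) := by
  have hne : (Pool.Agent.R490.Pg.fr T).Nonempty := by
    rw [← Finset.card_pos, Pool.Agent.R490.Pg.fr_card]
    exact Finset.card_pos.2 hT
  obtain ⟨B, hB⟩ := Pool.Agent.R490.Pg.narL (Pool.Agent.R490.Pg.fr_good (1 + ∑ r ∈ T, r) T (by omega) hT1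
    (fun r hr => by
      have h2 : r ≤ ∑ r ∈ T, r := Finset.single_le_sum (f := fun r => r) (fun _ _ => Nat.zero_le _) hr
      omega)) hne (fun p m => ∃ r ∈ T, p ∣ m * r + 1) (Pool.Agent.R490.Pg.fr_rep T) θ hθ R hR m hm ε hε
  refine ⟨B, ?_⟩
  filter_upwards [hB] with X hX Y hXY hYX A hA
  have h1 := hX Y hXY hYX A (by
    rintro q hq p hp ⟨r, hr, hd⟩
    exact hA hq r hr p hp hd)
  rw [Pool.Agent.R490.Pg.fr_card] at h1
  refine le_trans (le_of_eq ?_) h1
  congr 2
  apply filter_congr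
  intro m _
  unfold InProgression Pool.Agent.R490.Tu.InP
  simp only [Order.lt_add_one_iff]

end Pool.Agent.Results.MP_d018b2_nt.ArbitrarySets
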