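import Pool.Agent.R498.MP.ULin

set_option autoImplicit false

/-!
# Strings of consecutive primes `p` with almost prime `p r_j + 1`, uniformly in the `r_j`
-/

namespace Pool.Agent.Results.MP_d018b2_nt.PrimeStrings

open Filter

/-- `n` has at most `r` prime factors, counted with multiplicity, all of them at least `w`. -/
def AlmostPrime (r : ℕ) (w : ℝ) (n : ℕ) : Prop :=
  n.primeFactorsList.length ≤ r ∧ ∀ q : ℕ, q.Prime → q ∣ n → w ≤ q

/-- The primes in the interval `[x, x + C]` are exactly the numbers `x + s`, `s ∈ H`. -/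
def PrimePattern (C : ℕ) (H : Finset ℕ) (x : ℕ) : Prop := ∀ y ≤ C, (x + y).Prime ↔ y ∈ H

/-- **Strings of consecutive primes `p` with almost prime `p r_1 + 1, ..., p r_ℓ + 1`, uniformly in the `r_j`.**
Let `v` be squarefree. For all `ℓ` and `m` there are `K`, `B` and `δ > 0` such that for every `A` there is an
`R` such that, for every finite set `S` of at least `K` nonnegative integers, the following holds for all
large `N`, all positive `r_1, ..., r_ℓ ≤ N ^ A` for which `x (x r_1 + 1) ... (x r_ℓ + 1)` has no fixed prime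
divisor, and all `c` for which `c ∏ (c r_j + 1)` is coprime to `v` (for instance `v = 1`). There are a subset
`H` of `S` with at least `m` elements and at least `N / (log N) ^ B` numbers `x` with
`N < x ≤ x + max S ≤ 2 N` such that the primes in `[x, x + max S]` are exactly the numbers `x + s`, `s ∈ H`,
all these primes `p` are `≡ c` modulo `v`, and all `p r_j + 1` have at most `R` prime factors, all of them
at least `N ^ δ`. -/
theorem result (l v : ℕ) (hv : Squarefree v) (m : ℕ) : ∃ (K B : ℕ) (δ : ℝ), 0 < δ ∧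
    ∀ A : ℕ, ∃ R : ℕ, ∀ S : Finset ℕ, K ≤ S.card → ∀ᶠ N : ℕ in atTop, ∀ r : Fin l → ℕ,
      (∀ j, 0 < r j ∧ r j ≤ N ^ A) → (∀ p : ℕ, p.Prime → ∃ n : ℕ, ¬ p ∣ n * ∏ j, (n * r j + 1)) →
      ∀ c : ℕ, Nat.Coprime (c * ∏ j, (c * r j + 1)) v →
      ∃ H ⊆ S, m ≤ H.card ∧ ∃ T : Finset ℕ, (N : ℝ) ≤ Real.log N ^ B * T.card ∧
        ∀ x ∈ T, N < x ∧ x + S.sup id ≤ 2 * N ∧ PrimePattern (S.sup id) H x ∧
          ∀ s ∈ H, x + s ≡ c [MOD v] ∧ ∀ j, AlmostPrime R ((N : ℝ) ^ δ) ((x + s) * r j + 1) := by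
  obtain ⟨K, B, δ, hδ, hmain⟩ := Pool.Agent.R498.MP.natlinU l v hv m
  refine ⟨K, B, δ, hδ, fun A => ?_⟩
  obtain ⟨R, hR⟩ := hmain A
  refine ⟨R, fun S hS => ?_⟩
  filter_upwards [hR S hS, eventually_ge_atTop 1] with N hN hN1
  intro r hr hadm c hc
  have h3 : 1 ≤ N ^ A := Nat.one_le_pow _ _ hN1
  obtain ⟨H, hH, hHm, T, hT, hmem⟩ := hN r (fun _ => 1) (fun i => ⟨(hr i).2, h3⟩) (fun p hp => by
      obtain ⟨n, hn⟩ := hadm p hp
      refine ⟨n, ?_⟩
      simpa [mul_comm] using hn) c (by simpa [mul_comm] using hc)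
  have hev : ∀ j, r j ≠ 1 := by
    intro j hj
    obtain ⟨n, hn⟩ := hadm 2 Nat.prime_two
    apply hn
    rcases Nat.even_or_odd n with h | h
    · exact (even_iff_two_dvd.1 h).mul_right _
    · refine Dvd.dvd.mul_left ?_ _
      refine (Dvd.dvd.trans ?_ (Finset.dvd_prod_of_mem _ (Finset.mem_univ j)))
      rw [hj, mul_one]
      exact even_iff_two_dvd.1 (h.add_odd odd_one)
  refine ⟨H, hH, hHm, T, hT, fun x hx => ?_⟩
  obtain ⟨g1, g2, g3, g4⟩ := hmem x hx
  refine ⟨g1, g2, fun y hy => ⟨fun hp => ?_, fun hyH => (g3 y hyH).1⟩, fun s hs => ?_⟩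
  · by_contra hcon
    refine g4 y hy hcon (fun s _ _ j h0 => ?_) hp
    have h4 : r j ∣ 1 := (Nat.dvd_add_right (dvd_mul_right (r j) s)).1 (h0 ▸ dvd_mul_right _ _)
    exact hev j (Nat.dvd_one.1 h4)
  · obtain ⟨-, k2, k3⟩ := g3 s hs
    refine ⟨k2, fun j => ?_⟩
    have e0 := k3 j
    rw [mul_comm (r j)] at e0
    exact e0

end Pool.Agent.Results.MP_d018b2_nt.PrimeStrings
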