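import Pool.Agent.R490.Prog

set_option autoImplicit false

/-!
# Regular points of arbitrary sets of `q` with all `q r_j + 1` prime or rough, uniformly in the `r_j`
-/

namespace Pool.Agent.Results.MP_d018b2_nt.RegularPoints

open Finset Filter

/-- As in the problem: the number of the residue classes `q` modulo `p` with `p ∣ ∏ (q r + 1)`, the product
over the `r ∈ T`. -/
def w (T : Finset ℕ) (p : ℕ) : ℕ := ((Finset.range p).filter (fun q => p ∣ ∏ r ∈ T, (q * r + 1))).card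

/-- No `q r + 1`, `r ∈ T`, has a prime factor `≤ y`. -/
def Rough (T : Finset ℕ) (y q : ℕ) : Prop := ∀ p : ℕ, p.Prime → p ≤ y → ∀ r ∈ T, ¬ p ∣ q * r + 1

/-- The density of these `q`. -/
noncomputable def V (T : Finset ℕ) (y : ℕ) : ℝ :=
  ∏ p ∈ (Finset.range (y + 1)).filter Nat.Prime, (1 - (w T p : ℝ) / p)

open Classical in
/-- The number of elements of `S` in `(a, b]`. -/
noncomputable def count (S : Set ℕ) (a b : ℕ) : ℕ := ((Finset.Ioc a b).filter (fun m => m ∈ S)).card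

/-- All intervals `(m - s, m + t]` with `s, t ≤ Y` of length at least `L / κ` contain between
`κ (s + t) / L` and `(s + t) / (κ L)` elements of `S`. -/
def RightOrder (S : Set ℕ) (L κ : ℝ) (Y m : ℕ) : Prop :=
  ∀ s t : ℕ, s ≤ Y → t ≤ Y → L ≤ κ * (s + t) →
    κ * (s + t) / L ≤ count S (m - s) (m + t) ∧ (count S (m - s) (m + t) : ℝ) ≤ (s + t) / (κ * L)

/-- Up to `δ`, `S` has a constant density on both sides of `m` up to the distance `2 ^ j`. -/
def ConstantDensity (S : Set ℕ) (L κ δ : ℝ) (m j : ℕ) : Prop :=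
  ∃ lam : ℝ, κ ≤ lam ∧ lam ≤ 1 / κ ∧ ∀ s t : ℕ, s ≤ 2 ^ j → t ≤ 2 ^ j →
    |(count S (m - s) (m + t) : ℝ) - lam * (s + t) / L| ≤ δ * 2 ^ j / L

open Classical in
/-- The number of the scales `L ≤ 2 ^ j ≤ Y` without this property. -/
noncomputable def badScales (S : Set ℕ) (L κ δ : ℝ) (Y m : ℕ) : ℕ :=
  ((Finset.range (Nat.log 2 Y + 1)).filter (fun j => L ≤ (2 : ℝ) ^ j ∧ ¬ ConstantDensity S L κ δ m j)).card

/-- The elements of `S` that are not regular points of `S`. -/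
def Irregular (S : Set ℕ) (L κ δ : ℝ) (M Y : ℕ) : Set ℕ :=
  {m | m ∈ S ∧ ¬ (RightOrder S L κ Y m ∧ badScales S L κ δ Y m ≤ M)}

open Classical in
lemma V_eq (T : Finset ℕ) (y : ℕ) : Pool.Agent.R490.Pg.De (fun p m => ∃ r ∈ T, p ∣ m * r + 1) y = V T y := by
  unfold Pool.Agent.R490.Pg.De V w
  apply Finset.prod_congr rfl
  intro p hp
  have hpp := (Finset.mem_filter.1 hp).2
  congr 4
  ext m
  simp only [Finset.mem_filter]
  rw [Prime.dvd_finsetProd_iff hpp.prime]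

lemma ro_iff (T : Finset ℕ) (y m : ℕ) :
    Pool.Agent.R490.Pg.Ro (fun p m => ∃ r ∈ T, p ∣ m * r + 1) y m ↔ Rough T y m := by
  unfold Pool.Agent.R490.Pg.Ro Rough
  constructor
  · intro h p hp hpy r hr hd
    exact h p hp hpy ⟨r, hr, hd⟩
  · rintro h p hp hpy ⟨r, hr, hd⟩
    exact h p hp hpy r hr hd

open Classical in
/-- **Regular points, uniformly.** Let `l ≥ 2`, `A` and `θ > 0`. There is `R0` such that for `R ≥ R0` and `ε > 0`
there is `κ > 0`, and for `δ > 0` there is `M`, such that for all large `X`, with `y = X ^ (1 / R)`, ALL sets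
`T = {r_1, …, r_l}` of `l` positive integers up to `X ^ A` (much more than `b log X`), all intervals `(u, u + Y]`
with `X ^ θ ≤ Y ≤ X`, `Y ≤ u`, and EVERY set `S` of integers `q` for which no `q r_j + 1` has a prime factor `≤ y`,
for instance the set of all `q` for which these numbers are primes `> y`: all but at most `ε Y V` of the
elements of `S` in `(u, u + Y]` are regular points of `S`: all intervals around them of length at least
`1 / (κ V)` and at most `Y` to each side contain the right order of elements of `S`, and `S` has a constant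
density up to `δ` around them at all but `M` dyadic scales. -/
theorem result (l A : ℕ) (hl : 2 ≤ l) (θ : ℝ) (hθ : 0 < θ) :
    ∃ R0 : ℕ, 2 ≤ R0 ∧ ∀ R : ℕ, R0 ≤ R → ∀ ε : ℝ, 0 < ε → ∃ κ : ℝ, 0 < κ ∧
      ∀ δ : ℝ, 0 < δ → ∃ M : ℕ, ∀ᶠ X : ℕ in atTop, ∀ y : ℕ, y = ⌊(X : ℝ) ^ (1 / (R : ℝ))⌋₊ →
      ∀ T : Finset ℕ, T.card = l → (∀ r ∈ T, 1 ≤ r ∧ r ≤ X ^ A) →
      ∀ u Y : ℕ, (X : ℝ) ^ θ ≤ Y → Y ≤ X → Y ≤ u → ∀ S : Set ℕ, (∀ q ∈ S, Rough T y q) →
        (count (Irregular S (1 / V T y) κ δ M Y) u (u + Y) : ℝ) ≤ ε * (Y * V T y) := by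
  obtain ⟨R0, hR0, h0⟩ := Pool.Agent.R490.Pg.regR l A hl θ hθ
  refine ⟨R0, hR0, fun R hR ε hε => ?_⟩
  obtain ⟨κ, hκ, h1⟩ := h0 R hR ε hε
  refine ⟨κ, hκ, fun δ hδ => ?_⟩
  obtain ⟨M, h2⟩ := h1 δ hδ
  refine ⟨M, ?_⟩
  filter_upwards [h2, eventually_ge_atTop 1] with X hX hX1
  intro y hy T hT hTX u Y hY hYX hYu S hS
  have h3 := hX (Pool.Agent.R490.Pg.fr T) (fun p m => ∃ r ∈ T, p ∣ m * r + 1)
    ((Pool.Agent.R490.Pg.fr_card T).trans hT) (Pool.Agent.R490.Pg.fr_rep T)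
    (Pool.Agent.R490.Pg.fr_good _ T (Nat.one_le_pow _ _ hX1) (fun r hr => (hTX r hr).1) (fun r hr => (hTX r hr).2))
    u Y hY hYX hYu S
  rw [← hy, V_eq] at h3
  exact h3 (fun m hm => (ro_iff T y m).2 (hS m hm))

end Pool.Agent.Results.MP_d018b2_nt.RegularPoints
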