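import Pool.Agent.R490.Prog

set_option autoImplicit false

/-!
# The integers `q` with all `q r_j + 1` rough: the law of the spacings, uniformly in the `r_j`
-/

namespace Pool.Agent.Results.MP_d018b2_nt.SpacingLaw

open Finset Filter

/-- As in the problem: the number of the residue classes `q` modulo `p` with `p ∣ ∏ (q r + 1)`, the product
over the `r ∈ T`. -/
def w (T : Finset ℕ) (p : ℕ) : ℕ := ((Finset.range p).filter (fun q => p ∣ ∏ r ∈ T, (q * r + 1))).card

/-- No `q r + 1`, `r ∈ T`, has a prime factor `≤ y`. -/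
def Rough (T : Finset ℕ) (y q : ℕ) : Prop := ∀ p : ℕ, p.Prime → p ≤ y → ∀ r ∈ T, ¬ p ∣ q * r + 1

/-- The density of these `q`. -/
noncomputable def V (T : Finset ℕ) (y : ℕ) : ℝ :=
  ∏ p ∈ (Finset.range (y + 1)).filter Nat.Prime, (1 - (w T p : ℝ) / p)

open Classical in
/-- The number of the `q` in `(u, u + Y]` with `Rough T y q` for which fewer than `k` of the `B` integers
before `q` have this property, that is, for which the distance from `q` to the `k`-th preceding such integer is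
larger than `B`. -/
noncomputable def D (T : Finset ℕ) (y k B u Y : ℕ) : ℕ :=
  ((Ioc u (u + Y)).filter (fun q => Rough T y q ∧ ((Ico (q - B) q).filter (fun m => Rough T y m)).card < k)).card

open Classical in
lemma V_eq (T : Finset ℕ) (y : ℕ) : Pool.Agent.R490.Pg.De (fun p m => ∃ r ∈ T, p ∣ m * r + 1) y = V T y := by
  unfold Pool.Agent.R490.Pg.De V w
  apply Finset.prod_congr rfl
  intro p hp
  have hpp := (Finset.mem_filter.1 hp).2
  congr 4
  ext m
  simp only [Finset.mem_filter]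
  rw [Prime.dvd_finsetProd_iff hpp.prime]

lemma ro_iff (T : Finset ℕ) (y m : ℕ) :
    Pool.Agent.R490.Pg.Ro (fun p m => ∃ r ∈ T, p ∣ m * r + 1) y m ↔ Rough T y m := by
  unfold Pool.Agent.R490.Pg.Ro Rough
  constructor
  · intro h p hp hpy r hr hd
    exact h p hp hpy ⟨r, hr, hd⟩
  · rintro h p hp hpy ⟨r, hr, hd⟩
    exact h p hp hpy r hr hd

open Classical in
/-- **The law of the spacings, uniformly.** Let `l ≥ 2`, `A` and `θ > 0`. For all `k0`, `x0` and `ε > 0` there is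
`R0` such that for every `R ≥ R0`, all large `X`, with `y = X ^ (1 / R)`: for ALL sets `T = {r_1, …, r_l}` of `l`
positive integers up to `X ^ A` (much more than `b log X`) and ALL intervals `(u, u + Y]` with `Y ≥ X ^ θ`, among
the `q` for which no `q r_j + 1` has a prime factor `≤ y`, the distances to the `k`-th preceding one have, in
units `1 / V` and up to `ε`, the distribution which belongs to a Poisson process. -/
theorem result (l A : ℕ) (hl : 2 ≤ l) (θ : ℝ) (hθ : 0 < θ) (k0 : ℕ) (x0 ε : ℝ) (hε : 0 < ε) :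
    ∃ R0 : ℕ, ∀ R : ℕ, R0 ≤ R → ∀ᶠ X : ℕ in atTop, ∀ y : ℕ, y = ⌊(X : ℝ) ^ (1 / (R : ℝ))⌋₊ →
      ∀ T : Finset ℕ, T.card = l → (∀ r ∈ T, 1 ≤ r ∧ r ≤ X ^ A) →
      ∀ u Y : ℕ, (X : ℝ) ^ θ ≤ Y → ∀ k B : ℕ, (k ≤ k0 ∨ B * V T y ≤ x0) →
        |(D T y k B u Y : ℝ) - Y * V T y *
            ∑ j ∈ range k, Real.exp (-(B * V T y)) * (B * V T y) ^ j / j.factorial| ≤
          ε * (Y * V T y) := by
  obtain ⟨R0, h0⟩ := Pool.Agent.R490.Pg.gapR l A hl θ hθ k0 x0 ε hε
  refine ⟨R0, fun R hR => ?_⟩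
  filter_upwards [h0 R hR, eventually_ge_atTop 1] with X hX hX1
  intro y hy T hT hTX u Y hY k B hB
  have h1 := hX (Pool.Agent.R490.Pg.fr T) (fun p m => ∃ r ∈ T, p ∣ m * r + 1)
    ((Pool.Agent.R490.Pg.fr_card T).trans hT) (Pool.Agent.R490.Pg.fr_rep T)
    (Pool.Agent.R490.Pg.fr_good _ T (Nat.one_le_pow _ _ hX1) (fun r hr => (hTX r hr).1) (fun r hr => (hTX r hr).2))
    (Pool.Agent.R490.Pg.fr_noT T (fun r hr => (hTX r hr).1)) u Y hY k B
  rw [← hy, V_eq] at h1
  have e : ∀ m, Pool.Agent.R490.Pg.Ro (fun p m => ∃ r ∈ T, p ∣ m * r + 1) y m ↔ Rough T y m := ro_iff T y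
  have eD : Pool.Agent.R490.Pg.Dk (fun p m => ∃ r ∈ T, p ∣ m * r + 1) y k B u Y = D T y k B u Y := by
    unfold Pool.Agent.R490.Pg.Dk D
    simp only [e]
  rw [eD] at h1
  exact h1 hB

end Pool.Agent.Results.MP_d018b2_nt.SpacingLaw
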